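import Pool.Agent.H5.QH.Targets

/-!
# MP_63b6b1_nt, row HNSL: the completions have more than two square classes
-/

set_option autoImplicit false

open NumberField IsDedekindDomain Matrix Pool.Agent.H32.QC Pool.Agent.H34.N6 Pool.Agent.H5.QH

namespace Pool.Agent.H46.QH

theorem pf_NSL (hQ : T_QUI) (hN : T_NIV) : T_NSL := by
  intro K _ _ v n a hn ha
  obtain ⟨h2, hni, hsq⟩ := hN K v
  refine hQ (v.adicCompletion K) h2 hni ?_ n a hn ha
  have h1 : ‖(2 : v.adicCompletion K)‖ ≤ 1 := by
    have := IsUltrametricDist.norm_natCast_le_one (v.adicCompletion K) 2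
    simpa using this
  have h0 : 0 ≤ ‖(2 : v.adicCompletion K)‖ := norm_nonneg _
  have h3 : (4 : ℝ) ≤ nsq (v.adicCompletion K) := by
    have h4 : (0 : ℝ) ≤ nsq (v.adicCompletion K) := by positivity
    nlinarith
  have h5 : (4 : ℕ) ≤ nsq (v.adicCompletion K) := by exact_mod_cast h3
  omega

end Pool.Agent.H46.QH
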