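import Pool.Agent.H5.QH.Targets

/-!
# MP_63b6b1_nt, row HHMN: the theorem of Hasse and Minkowski from its parts
-/

set_option autoImplicit false

open NumberField IsDedekindDomain Matrix Pool.Agent.H32.QC Pool.Agent.H34.N6 Pool.Agent.H5.QH

namespace Pool.Agent.H46.QH

theorem pf_HMN (h3 : T_HM3) (h4 : T_HM4) (hS : T_STP) : T_HMN := by
  intro K _ _
  have key : ∀ m : ℕ, ∀ a : Fin (m + 4) → K, (∀ i, a i ≠ 0) → LocIso a → Iso a := by
    intro m
    induction m with
    | zero => exact fun a => h4 K a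
    | succ m ih => exact fun a => hS K m ih a
  intro n a hn ha hl
  rcases Nat.lt_or_ge n 4 with h | h
  · obtain rfl : n = 3 := by omega
    exact h3 K a ha hl
  · obtain ⟨m, rfl⟩ : ∃ m, n = m + 4 := ⟨n - 4, by omega⟩
    exact key m a ha hl

end Pool.Agent.H46.QH
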